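import Mathlib

/-!
Query algorithms for a monotone graph property: the average number of queries over the minimal
graphs is at least the binary logarithm of the number of minimal graphs.
-/

set_option autoImplicit false
set_option linter.unusedSectionVars false
open Classical

namespace Pool.Agent.AG13

variable {V : Type} [Fintype V]

/-- The history of the algorithm `nx` on the graph `G` after `K` steps. -/
noncomputable def run (nx : List (Sym2 V × Bool) → Option (Sym2 V)) (G : SimpleGraph V) (K : ℕ) :
    List (Sym2 V × Bool) :=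
  Nat.iterate (fun h : List (Sym2 V × Bool) =>
    (nx h).elim h (fun e => h ++ [(e, decide (e ∈ G.edgeSet))])) K []

theorem run_zero (nx : List (Sym2 V × Bool) → Option (Sym2 V)) (G : SimpleGraph V) :
    run nx G 0 = [] := rfl

theorem run_succ (nx : List (Sym2 V × Bool) → Option (Sym2 V)) (G : SimpleGraph V) (K : ℕ) :
    run nx G (K + 1) = (nx (run nx G K)).elim (run nx G K)
      (fun e => run nx G K ++ [(e, decide (e ∈ G.edgeSet))]) := by
  unfold run
  rw [Function.iterate_succ_apply']

theorem run_answer (nx : List (Sym2 V × Bool) → Option (Sym2 V)) (G : SimpleGraph V) (K : ℕ) :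
    ∀ x ∈ run nx G K, x.2 = decide (x.1 ∈ G.edgeSet) := by
  induction K with
  | zero => intro x hx; simp [run_zero] at hx
  | succ K ih =>
    intro x hx
    rw [run_succ] at hx
    cases hn : nx (run nx G K) with
    | none => rw [hn] at hx; exact ih x hx
    | some e =>
      rw [hn] at hx
      simp only [Option.elim_some, List.mem_append, List.mem_singleton] at hx
      rcases hx with hx | hx
      · exact ih x hx
      · subst hx; rfl

theorem run_congr (nx : List (Sym2 V × Bool) → Option (Sym2 V)) (G G' : SimpleGraph V) (K : ℕ)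
    (h : ∀ x ∈ run nx G K, (x.1 ∈ G.edgeSet ↔ x.1 ∈ G'.edgeSet)) :
    run nx G' K = run nx G K := by
  induction K with
  | zero => rfl
  | succ K ih =>
    have h1 : run nx G' K = run nx G K := by
      apply ih
      intro x hx
      apply h
      rw [run_succ]
      cases hn : nx (run nx G K) with
      | none => exact hx
      | some e => simp only [Option.elim_some, List.mem_append]; exact Or.inl hx
    rw [run_succ, run_succ, h1]
    cases hn : nx (run nx G K) with
    | none => rfl
    | some e =>
      simp only [Option.elim_some]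
      have h2 : (e ∈ G.edgeSet ↔ e ∈ G'.edgeSet) := by
        have := h (e, decide (e ∈ G.edgeSet)) (by
          rw [run_succ, hn]
          simp)
        exact this
      simp only [h2]

/-- the graph `G'` changed to agree with `G` on the pairs in `Q` -/
def patch (Q : Set (Sym2 V)) (G G' : SimpleGraph V) : SimpleGraph V where
  Adj u v := if s(u, v) ∈ Q then G.Adj u v else G'.Adj u v
  symm := ⟨by
    intro u v h
    rw [Sym2.eq_swap (a := v) (b := u)]
    split_ifs at h ⊢ with hq
    · exact h.symm
    · exact h.symm⟩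
  loopless := ⟨by
    intro u h
    split_ifs at h with hq
    · exact G.loopless.irrefl u h
    · exact G'.loopless.irrefl u h⟩

theorem patch_mem (Q : Set (Sym2 V)) (G G' : SimpleGraph V) (e : Sym2 V) :
    e ∈ (patch Q G G').edgeSet ↔ if e ∈ Q then e ∈ G.edgeSet else e ∈ G'.edgeSet := by
  induction e using Sym2.ind with
  | _ u v =>
    rw [SimpleGraph.mem_edgeSet]
    rfl

/-- The cell of `G`: the graphs with the same history. -/
noncomputable def cell (nx : List (Sym2 V × Bool) → Option (Sym2 V)) (K : ℕ) (G : SimpleGraph V) :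
    Finset (SimpleGraph V) :=
  Finset.univ.filter (fun G' => run nx G' K = run nx G K)

theorem card_cell (nx : List (Sym2 V × Bool) → Option (Sym2 V)) (K : ℕ) (G : SimpleGraph V) :
    Fintype.card (SimpleGraph V) ≤ (cell nx K G).card * 2 ^ (run nx G K).length := by
  set h := run nx G K with hh
  set Q : Set (Sym2 V) := {e | ∃ b, (e, b) ∈ h} with hQ
  have key : Function.Injective (fun G' : SimpleGraph V =>
      ((⟨patch Q G G', by
        rw [cell, Finset.mem_filter]
        refine ⟨Finset.mem_univ _, run_congr _ _ _ _ ?_⟩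
        intro x hx
        rw [patch_mem, if_pos ⟨x.2, hx⟩]⟩ : {G'' // G'' ∈ cell nx K G}),
       (fun i : Fin h.length => decide ((h.get i).1 ∈ G'.edgeSet)))) := by
    intro G₁ G₂ h12
    simp only [Prod.mk.injEq, Subtype.mk.injEq] at h12
    obtain ⟨ha, hb⟩ := h12
    rw [← SimpleGraph.edgeSet_inj]
    ext e
    by_cases he : e ∈ Q
    · obtain ⟨b, hb'⟩ := he
      obtain ⟨i, hi⟩ := List.mem_iff_get.1 hb'
      have := congrFun hb i
      simp only [hi, decide_eq_decide] at this
      exact this
    · have h1 := patch_mem Q G G₁ e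
      have h2 := patch_mem Q G G₂ e
      rw [ha] at h1
      rw [if_neg he] at h1 h2
      exact h1.symm.trans h2
  have := Fintype.card_le_of_injective _ key
  rw [Fintype.card_prod, Fintype.card_coe, Fintype.card_fun, Fintype.card_bool,
    Fintype.card_fin] at this
  exact this

/-- The minimal graphs of a property. -/
noncomputable def minSet (P : SimpleGraph V → Prop) : Finset (SimpleGraph V) :=
  Finset.univ.filter (fun G => P G ∧ ∀ G' < G, ¬ P G')

theorem minimal_queried (P : SimpleGraph V → Prop)
    (nx : List (Sym2 V × Bool) → Option (Sym2 V)) (ot : List (Sym2 V × Bool) → Bool) (K : ℕ)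
    (hc : ∀ G : SimpleGraph V, ot (run nx G K) = decide (P G)) (G : SimpleGraph V)
    (hG : G ∈ minSet P) (e : Sym2 V) (he : e ∈ G.edgeSet) : (e, true) ∈ run nx G K := by
  rw [minSet, Finset.mem_filter] at hG
  obtain ⟨-, hPG, hmin⟩ := hG
  by_contra hne
  have hq : ∀ b, (e, b) ∉ run nx G K := by
    intro b hb
    have h1 := run_answer nx G K _ hb
    simp only [he, decide_true] at h1
    rw [h1] at hb
    exact hne hb
  have hlt : G.deleteEdges {e} < G := by
    refine lt_of_le_of_ne (SimpleGraph.deleteEdges_le _) ?_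
    intro h
    have : e ∈ (G.deleteEdges {e}).edgeSet := by rw [h]; exact he
    rw [SimpleGraph.edgeSet_deleteEdges] at this
    exact this.2 rfl
  have hrun : run nx (G.deleteEdges {e}) K = run nx G K := by
    apply run_congr
    intro x hx
    rw [SimpleGraph.edgeSet_deleteEdges]
    constructor
    · intro h1
      refine ⟨h1, ?_⟩
      intro h2
      rw [Set.mem_singleton_iff] at h2
      apply hq x.2
      rw [← h2]
      exact hx
    · intro h1
      exact h1.1
  have h1 := hc (G.deleteEdges {e})
  rw [hrun, hc G] at h1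
  have h2 : P (G.deleteEdges {e}) := by
    rw [decide_eq_decide] at h1
    exact h1.1 hPG
  exact hmin _ hlt h2

theorem minimal_inj (P : SimpleGraph V → Prop)
    (nx : List (Sym2 V × Bool) → Option (Sym2 V)) (ot : List (Sym2 V × Bool) → Bool) (K : ℕ)
    (hc : ∀ G : SimpleGraph V, ot (run nx G K) = decide (P G)) (G₁ G₂ : SimpleGraph V)
    (h1 : G₁ ∈ minSet P) (h2 : G₂ ∈ minSet P) (h : run nx G₁ K = run nx G₂ K) : G₁ = G₂ := by
  have aux : ∀ G G' : SimpleGraph V, G ∈ minSet P → run nx G K = run nx G' K →
      G.edgeSet ⊆ G'.edgeSet := by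
    intro G G' hG hr e he
    have h3 := minimal_queried P nx ot K hc G hG e he
    rw [hr] at h3
    have h4 := run_answer nx G' K _ h3
    simpa using h4.symm
  rw [← SimpleGraph.edgeSet_inj]
  exact Set.Subset.antisymm (aux _ _ h1 h) (aux _ _ h2 h.symm)

theorem kraft (P : SimpleGraph V → Prop)
    (nx : List (Sym2 V × Bool) → Option (Sym2 V)) (ot : List (Sym2 V × Bool) → Bool) (K : ℕ)
    (hc : ∀ G : SimpleGraph V, ot (run nx G K) = decide (P G)) :
    ∑ G ∈ minSet P, ((1 : ℝ) / 2) ^ (run nx G K).length ≤ 1 := by
  have h1 : ∑ G ∈ minSet P, (cell nx K G).card ≤ Fintype.card (SimpleGraph V) := by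
    rw [← Finset.card_biUnion]
    · exact Finset.card_le_univ _
    · intro G₁ hG₁ G₂ hG₂ hne
      change Disjoint (cell nx K G₁) (cell nx K G₂)
      rw [Finset.disjoint_left]
      intro G hG hG'
      rw [cell, Finset.mem_filter] at hG hG'
      exact hne (minimal_inj P nx ot K hc G₁ G₂ hG₁ hG₂ (hG.2.symm.trans hG'.2))
  have hpos : (0 : ℝ) < Fintype.card (SimpleGraph V) := by
    exact_mod_cast Fintype.card_pos
  have h2 : ∀ G ∈ minSet P, ((1 : ℝ) / 2) ^ (run nx G K).length ≤
      (cell nx K G).card / Fintype.card (SimpleGraph V) := by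
    intro G _
    rw [le_div_iff₀ hpos, one_div, inv_pow, inv_mul_le_iff₀ (by positivity), mul_comm]
    exact_mod_cast card_cell nx K G
  calc _ ≤ ∑ G ∈ minSet P, ((cell nx K G).card : ℝ) / Fintype.card (SimpleGraph V) :=
        Finset.sum_le_sum h2
    _ = ((∑ G ∈ minSet P, (cell nx K G).card : ℕ) : ℝ) / Fintype.card (SimpleGraph V) := by
        rw [← Finset.sum_div]; push_cast; rfl
    _ ≤ 1 := by
        rw [div_le_one hpos]
        exact_mod_cast h1

theorem jensen {α : Type} (s : Finset α) (l : α → ℕ) (hs : s.Nonempty)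
    (h : ∑ a ∈ s, ((1 : ℝ) / 2) ^ (l a) ≤ 1) :
    (s.card : ℝ) * Real.logb 2 s.card ≤ ∑ a ∈ s, (l a : ℝ) := by
  have hM : (0 : ℝ) < s.card := by exact_mod_cast Finset.card_pos.2 hs
  have hl2 : (0 : ℝ) < Real.log 2 := Real.log_pos (by norm_num)
  have h1 : ∀ a ∈ s, Real.log s.card - (l a : ℝ) * Real.log 2 ≤
      (s.card : ℝ) * ((1 : ℝ) / 2) ^ (l a) - 1 := by
    intro a _
    have h2 := Real.log_le_sub_one_of_pos (show 0 < (s.card : ℝ) * ((1 : ℝ) / 2) ^ (l a) by
      positivity)
    rw [Real.log_mul hM.ne' (by positivity), Real.log_pow, one_div, Real.log_inv] at h2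
    rw [one_div]
    linarith
  have h3 := Finset.sum_le_sum h1
  rw [Finset.sum_sub_distrib, Finset.sum_sub_distrib, ← Finset.mul_sum, ← Finset.sum_mul,
    Finset.sum_const, Finset.sum_const, nsmul_eq_mul, nsmul_eq_mul] at h3
  have h4 : (s.card : ℝ) * Real.log s.card ≤ (∑ a ∈ s, (l a : ℝ)) * Real.log 2 := by
    nlinarith
  rw [Real.logb, mul_div_assoc', div_le_iff₀ hl2]
  exact h4

/-- A probability distribution on correct query algorithms makes on some input graph at least
`log₂` of the number of minimal graphs expected queries. -/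
theorem exists_cost (P : SimpleGraph V → Prop) (hne : (minSet P).Nonempty) (k K : ℕ)
    (nx : Fin k → List (Sym2 V × Bool) → Option (Sym2 V))
    (ot : Fin k → List (Sym2 V × Bool) → Bool) (p : Fin k → ℝ) (hp : ∀ i, 0 ≤ p i)
    (hs : ∑ i, p i = 1)
    (hc : ∀ i (G : SimpleGraph V), ot i (run (nx i) G K) = decide (P G)) :
    ∃ G : SimpleGraph V, Real.logb 2 (minSet P).card ≤
      ∑ i, p i * ((run (nx i) G K).length : ℝ) := by
  by_contra hcon
  push Not at hcon
  have h1 : ∀ i, ((minSet P).card : ℝ) * Real.logb 2 (minSet P).card ≤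
      ∑ G ∈ minSet P, ((run (nx i) G K).length : ℝ) := fun i =>
    jensen (minSet P) (fun G => (run (nx i) G K).length) hne (kraft P (nx i) (ot i) K (hc i))
  have h2 : ∑ G ∈ minSet P, ∑ i, p i * ((run (nx i) G K).length : ℝ) <
      ∑ G ∈ minSet P, Real.logb 2 (minSet P).card :=
    Finset.sum_lt_sum_of_nonempty hne (fun G _ => hcon G)
  rw [Finset.sum_comm, Finset.sum_const, nsmul_eq_mul] at h2
  have h3 : ((minSet P).card : ℝ) * Real.logb 2 (minSet P).card ≤
      ∑ i, ∑ G ∈ minSet P, p i * ((run (nx i) G K).length : ℝ) := by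
    calc _ = ∑ i, p i * (((minSet P).card : ℝ) * Real.logb 2 (minSet P).card) := by
          rw [← Finset.sum_mul, hs, one_mul]
      _ ≤ _ := by
          apply Finset.sum_le_sum
          intro i _
          rw [← Finset.mul_sum]
          exact mul_le_mul_of_nonneg_left (h1 i) (hp i)
  linarith

end Pool.Agent.AG13
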