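import Mathlib
import Pool.Agent.AG13.Tree

/-!
Counting monotone graph properties: few have few minimal graphs, and there are many of them.
-/

set_option autoImplicit false
set_option linter.unusedSectionVars false
open Classical

namespace Pool.Agent.AG13

/-- Nontrivial monotone properties of the graphs on `Fin n`, invariant under isomorphism. -/
def IsProp {n : ℕ} (P : SimpleGraph (Fin n) → Prop) : Prop :=
  (∀ (σ : Equiv.Perm (Fin n)) (G : SimpleGraph (Fin n)),
    P (G.map (Equiv.toEmbedding σ)) ↔ P G) ∧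
  (∀ G H : SimpleGraph (Fin n), G ≤ H → P G → P H) ∧ P ⊤ ∧ ¬ P ⊥

section upper

variable {V : Type} [Fintype V]

theorem iff_minSet (P : SimpleGraph V → Prop) (hP : ∀ G H : SimpleGraph V, G ≤ H → P G → P H)
    (G : SimpleGraph V) : P G ↔ ∃ H ∈ minSet P, H ≤ G := by
  constructor
  · intro h
    obtain ⟨H, hH, hmin⟩ := exists_minimal_le_of_wellFoundedLT P G h
    refine ⟨H, ?_, hH⟩
    rw [minSet, Finset.mem_filter]
    exact ⟨Finset.mem_univ _, hmin.prop, fun G' hG' h' => hmin.not_prop_of_lt hG' h'⟩
  · rintro ⟨H, hH, hle⟩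
    rw [minSet, Finset.mem_filter] at hH
    exact hP H G hle hH.2.1

theorem minSet_nonempty (P : SimpleGraph V → Prop)
    (hP : ∀ G H : SimpleGraph V, G ≤ H → P G → P H) (htop : P ⊤) : (minSet P).Nonempty := by
  obtain ⟨H, hH, -⟩ := (iff_minSet P hP ⊤).1 htop
  exact ⟨H, hH⟩

end upper

theorem card_small (α : Type) [Fintype α] (m : ℕ) :
    Nat.card {S : Finset α // S.card ≤ m} ≤ (Fintype.card α + 1) ^ m := by
  have hsurj : Function.Surjective (fun f : Fin m → Option α =>
      (⟨Finset.univ.filter (fun a => ∃ i, f i = some a), by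
        have h1 : (Finset.univ.filter (fun a => ∃ i, f i = some a)).map
            Function.Embedding.some ⊆ Finset.univ.image f := by
          intro x hx
          rw [Finset.mem_map] at hx
          obtain ⟨a, ha, rfl⟩ := hx
          rw [Finset.mem_filter] at ha
          obtain ⟨-, i, hi⟩ := ha
          rw [Finset.mem_image]
          exact ⟨i, Finset.mem_univ _, hi⟩
        have h2 := Finset.card_le_card h1
        rw [Finset.card_map] at h2
        exact h2.trans (Finset.card_image_le.trans (by simp))⟩ :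
          {S : Finset α // S.card ≤ m})) := by
    rintro ⟨S, hS⟩
    refine ⟨fun i => if h : i.1 < S.card then some (S.equivFin.symm ⟨i.1, h⟩).1 else none, ?_⟩
    apply Subtype.ext
    ext a
    simp only [Finset.mem_filter, Finset.mem_univ, true_and]
    constructor
    · rintro ⟨i, hi⟩
      split_ifs at hi with h
      · simp only [Option.some.injEq] at hi
        rw [← hi]
        exact (S.equivFin.symm ⟨i.1, h⟩).2
    · intro ha
      have hlt := (S.equivFin ⟨a, ha⟩).2
      refine ⟨⟨(S.equivFin ⟨a, ha⟩).1, hlt.trans_le hS⟩, ?_⟩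
      simp only [hlt, dite_true]
      simp
  have := Nat.card_le_card_of_surjective _ hsurj
  rw [Nat.card_eq_fintype_card, Nat.card_eq_fintype_card, Fintype.card_fun, Fintype.card_option,
    Fintype.card_fin] at this
  rw [Nat.card_eq_fintype_card]
  exact this

theorem card_few {n : ℕ} (m : ℕ) :
    Nat.card {P : SimpleGraph (Fin n) → Prop // IsProp P ∧ (minSet P).card ≤ m} ≤
      (Fintype.card (SimpleGraph (Fin n)) + 1) ^ m := by
  refine le_trans ?_ (card_small (SimpleGraph (Fin n)) m)
  refine Nat.card_le_card_of_injective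
    (fun P : {P : SimpleGraph (Fin n) → Prop // IsProp P ∧ (minSet P).card ≤ m} =>
      (⟨minSet P.1, P.2.2⟩ : {S : Finset (SimpleGraph (Fin n)) // S.card ≤ m})) ?_
  rintro ⟨P, hP, hm⟩ ⟨P', hP', hm'⟩ h
  simp only [Subtype.mk.injEq] at h
  apply Subtype.ext
  funext G
  apply propext
  change P G ↔ P' G
  rw [iff_minSet P hP.2.1, iff_minSet P' hP'.2.1, h]

section lower

variable {n : ℕ}

/-- the number of edges -/
noncomputable def ec (G : SimpleGraph (Fin n)) : ℕ :=
  (Finset.univ.filter (fun e => e ∈ G.edgeSet)).card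

theorem ec_mono {G H : SimpleGraph (Fin n)} (h : G ≤ H) : ec G ≤ ec H := by
  apply Finset.card_le_card
  intro e he
  rw [Finset.mem_filter] at he ⊢
  exact ⟨Finset.mem_univ _, SimpleGraph.edgeSet_mono h he.2⟩

theorem ec_eq {G H : SimpleGraph (Fin n)} (h : G ≤ H) (he : ec G = ec H) : G = H := by
  have h1 : Finset.univ.filter (fun e => e ∈ G.edgeSet) =
      Finset.univ.filter (fun e => e ∈ H.edgeSet) := by
    apply Finset.eq_of_subset_of_card_le
    · intro e he
      rw [Finset.mem_filter] at he ⊢
      exact ⟨Finset.mem_univ _, SimpleGraph.edgeSet_mono h he.2⟩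
    · exact he.ge
  rw [← SimpleGraph.edgeSet_inj]
  ext e
  have h2 := congrArg (fun s => e ∈ s) h1
  simpa using h2

theorem ec_map (σ : Equiv.Perm (Fin n)) (G : SimpleGraph (Fin n)) :
    ec (G.map (Equiv.toEmbedding σ)) = ec G := by
  unfold ec
  rw [← Finset.card_map (Equiv.toEmbedding σ).sym2Map
    (s := Finset.univ.filter (fun e => e ∈ G.edgeSet))]
  congr 1
  ext e
  simp only [Finset.mem_filter, Finset.mem_univ, true_and, Finset.mem_map]
  rw [SimpleGraph.edgeSet_map]
  simp only [Set.mem_image]

theorem ec_bot : ec (⊥ : SimpleGraph (Fin n)) = 0 := by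
  unfold ec
  simp

/-- all pairs of different vertices -/
noncomputable def prs (n : ℕ) : Finset (Sym2 (Fin n)) := Finset.univ.filter (fun e => ¬ e.IsDiag)

theorem card_prs : (prs n).card = n.choose 2 := by
  have h := Sym2.card_subtype_not_diag (α := Fin n)
  rw [Fintype.card_fin] at h
  rw [← h, prs, Fintype.card_subtype]

theorem ec_top : ec (⊤ : SimpleGraph (Fin n)) = n.choose 2 := by
  rw [← card_prs]
  unfold ec prs
  congr 1
  ext e
  simp [SimpleGraph.edgeSet_top]

theorem card_graphs : Fintype.card (SimpleGraph (Fin n)) = 2 ^ (n.choose 2) := by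
  rw [← card_prs, ← Finset.card_powerset, ← Finset.card_univ]
  refine Finset.card_bij (fun G _ => Finset.univ.filter (fun e => e ∈ G.edgeSet)) ?_ ?_ ?_
  · intro G _
    rw [Finset.mem_powerset]
    intro e he
    rw [Finset.mem_filter] at he
    rw [prs, Finset.mem_filter]
    exact ⟨Finset.mem_univ _, G.not_isDiag_of_mem_edgeSet he.2⟩
  · intro G _ H _ h
    rw [← SimpleGraph.edgeSet_inj]
    ext e
    have h2 := congrArg (fun s => e ∈ s) h
    simpa using h2
  · intro S hS
    rw [Finset.mem_powerset] at hS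
    refine ⟨SimpleGraph.fromEdgeSet (S : Set (Sym2 (Fin n))), Finset.mem_univ _, ?_⟩
    ext e
    simp only [Finset.mem_filter, Finset.mem_univ, true_and, SimpleGraph.edgeSet_fromEdgeSet,
      Set.mem_sdiff, Finset.mem_coe]
    constructor
    · rintro ⟨h, -⟩
      exact h
    · intro h
      refine ⟨h, ?_⟩
      have := hS h
      rw [prs, Finset.mem_filter] at this
      exact this.2

/-- isomorphism on the graphs with `M` edges -/
def sL (n M : ℕ) : Setoid {G : SimpleGraph (Fin n) // ec G = M} where
  r G H := ∃ σ : Equiv.Perm (Fin n), G.1.map (Equiv.toEmbedding σ) = H.1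
  iseqv := {
    refl := fun G => ⟨1, by
      ext u v
      rw [SimpleGraph.map_adj]
      simp⟩
    symm := by
      rintro G H ⟨σ, h⟩
      refine ⟨σ⁻¹, ?_⟩
      rw [← h]
      ext u v
      simp only [SimpleGraph.map_adj]
      constructor
      · rintro ⟨a, b, ⟨c, d, hcd, rfl, rfl⟩, rfl, rfl⟩
        simpa using hcd
      · intro huv
        exact ⟨σ u, σ v, ⟨u, v, huv, rfl, rfl⟩, by simp, by simp⟩
    trans := by
      rintro G H J ⟨σ, h⟩ ⟨τ, h'⟩
      refine ⟨τ * σ, ?_⟩
      rw [← h', ← h]
      ext u v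
      simp only [SimpleGraph.map_adj]
      constructor
      · rintro ⟨a, b, hab, rfl, rfl⟩
        exact ⟨σ a, σ b, ⟨a, b, hab, rfl, rfl⟩, rfl, rfl⟩
      · rintro ⟨a, b, ⟨c, d, hcd, rfl, rfl⟩, rfl, rfl⟩
        exact ⟨c, d, hcd, rfl, rfl⟩ }

theorem card_layer (n M : ℕ) :
    Nat.card {G : SimpleGraph (Fin n) // ec G = M} ≤
      Nat.card (Quotient (sL n M)) * n.factorial := by
  have hsurj : Function.Surjective (fun x : Quotient (sL n M) × Equiv.Perm (Fin n) =>
      (⟨x.1.out.1.map (Equiv.toEmbedding x.2), by rw [ec_map]; exact x.1.out.2⟩ :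
        {G : SimpleGraph (Fin n) // ec G = M})) := by
    intro G
    have h1 : (sL n M).r (Quotient.mk (sL n M) G).out G := Quotient.exact (Quotient.out_eq _)
    obtain ⟨σ, hσ⟩ := h1
    exact ⟨(Quotient.mk (sL n M) G, σ), Subtype.ext hσ⟩
  have := Nat.card_le_card_of_surjective _ hsurj
  rw [Nat.card_prod, Nat.card_perm, Nat.card_eq_fintype_card (α := Fin n),
    Fintype.card_fin] at this
  exact this

/-- all graphs with more than `M` edges and some isomorphism classes with `M` edges -/
def mid (M : ℕ) (S : Quotient (sL n M) → Prop) (G : SimpleGraph (Fin n)) : Prop :=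
  M < ec G ∨ ∃ h : ec G = M, S (Quotient.mk (sL n M) ⟨G, h⟩)

theorem mid_isProp (M : ℕ) (h0 : 0 < M) (h1 : M < n.choose 2) (S : Quotient (sL n M) → Prop) :
    IsProp (mid M S) := by
  refine ⟨?_, ?_, ?_, ?_⟩
  · intro σ G
    have hcl : ∀ h : ec G = M, Quotient.mk (sL n M)
        ⟨G.map (Equiv.toEmbedding σ), (ec_map σ G).trans h⟩ = Quotient.mk (sL n M) ⟨G, h⟩ := by
      intro h
      exact (Quotient.sound (s := sL n M) ⟨σ, rfl⟩).symm
    unfold mid
    constructor
    · rintro (h | ⟨h, hS⟩)
      · exact Or.inl (by rwa [ec_map] at h)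
      · refine Or.inr ⟨by rwa [ec_map] at h, ?_⟩
        rw [← hcl]
        exact hS
    · rintro (h | ⟨h, hS⟩)
      · exact Or.inl (by rwa [ec_map])
      · refine Or.inr ⟨(ec_map σ G).trans h, ?_⟩
        rw [hcl]
        exact hS
  · rintro G H hle (h | ⟨h, hS⟩)
    · exact Or.inl (h.trans_le (ec_mono hle))
    · rcases (ec_mono hle).lt_or_eq with hlt | heq
      · exact Or.inl (h ▸ hlt)
      · have := ec_eq hle heq
        subst this
        exact Or.inr ⟨h, hS⟩
  · exact Or.inl (by rw [ec_top]; exact h1)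
  · rintro (h | ⟨h, -⟩)
    · rw [ec_bot] at h
      omega
    · rw [ec_bot] at h
      omega

theorem card_many (M : ℕ) (h0 : 0 < M) (h1 : M < n.choose 2) :
    2 ^ Nat.card (Quotient (sL n M)) ≤ Nat.card {P : SimpleGraph (Fin n) → Prop // IsProp P} := by
  have hfin : Finite (Quotient (sL n M)) := inferInstance
  have h2 : Nat.card (Quotient (sL n M) → Prop) = 2 ^ Nat.card (Quotient (sL n M)) := by
    rw [Nat.card_fun, Nat.card_eq_fintype_card (α := Prop), Fintype.card_prop]
  rw [← h2]
  refine Nat.card_le_card_of_injective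
    (fun S : Quotient (sL n M) → Prop =>
      (⟨mid M S, mid_isProp M h0 h1 S⟩ : {P : SimpleGraph (Fin n) → Prop // IsProp P})) ?_
  intro S S' h
  simp only [Subtype.mk.injEq] at h
  funext q
  induction q using Quotient.inductionOn with
  | _ G =>
    have h3 := congrFun h G.1
    unfold mid at h3
    have h4 : ¬ M < ec G.1 := by rw [G.2]; exact lt_irrefl _
    simp only [h4, false_or] at h3
    apply propext
    constructor
    · intro hS
      have : ∃ h : ec G.1 = M, S (Quotient.mk (sL n M) ⟨G.1, h⟩) := ⟨G.2, hS⟩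
      rw [h3] at this
      exact this.2
    · intro hS
      have : ∃ h : ec G.1 = M, S' (Quotient.mk (sL n M) ⟨G.1, h⟩) := ⟨G.2, hS⟩
      rw [← h3] at this
      exact this.2

/-- some number of edges is attained by many graphs -/
theorem exists_layer (n : ℕ) : ∃ M ≤ n.choose 2, 2 ^ (n.choose 2) ≤
    Nat.card {G : SimpleGraph (Fin n) // ec G = M} * (n.choose 2 + 1) := by
  by_contra hcon
  push Not at hcon
  have h1 : Fintype.card (SimpleGraph (Fin n)) =
      ∑ M ∈ Finset.range (n.choose 2 + 1),
        (Finset.univ.filter (fun G : SimpleGraph (Fin n) => ec G = M)).card := by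
    rw [← Finset.card_univ]
    apply Finset.card_eq_sum_card_fiberwise
    intro G _
    rw [Finset.mem_coe, Finset.mem_range]
    have := ec_mono (le_top : G ≤ ⊤)
    rw [ec_top] at this
    omega
  have h2 : ∀ M ∈ Finset.range (n.choose 2 + 1),
      (Finset.univ.filter (fun G : SimpleGraph (Fin n) => ec G = M)).card * (n.choose 2 + 1) <
        2 ^ (n.choose 2) := by
    intro M hM
    rw [Finset.mem_range] at hM
    have h3 := hcon M (by omega)
    rwa [Nat.card_eq_fintype_card, Fintype.card_subtype] at h3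
  have h4 : (∑ M ∈ Finset.range (n.choose 2 + 1),
      (Finset.univ.filter (fun G : SimpleGraph (Fin n) => ec G = M)).card * (n.choose 2 + 1)) <
      ∑ M ∈ Finset.range (n.choose 2 + 1), 2 ^ (n.choose 2) :=
    Finset.sum_lt_sum_of_nonempty (by simp) h2
  rw [← Finset.sum_mul, ← h1, card_graphs, Finset.sum_const, Finset.card_range, smul_eq_mul,
    mul_comm] at h4
  exact lt_irrefl _ h4

end lower

end Pool.Agent.AG13
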