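import Mathlib
import Pool.Agent.AG13.Count

/-!
Few isomorphism classes of graphs have a nontrivial automorphism.
-/

set_option autoImplicit false
set_option linter.unusedSectionVars false
open Classical

namespace Pool.Agent.AG13

section perm

variable {α : Type} [Fintype α] [DecidableEq α]

theorem exists_cover [Nonempty α] (s : Finset α) (k : ℕ) (h : s.card ≤ k) :
    ∃ c : Fin k → α, ∀ u ∈ s, ∃ i, c i = u := by
  refine ⟨fun i => if hi : (i : ℕ) < s.card then (s.equivFin.symm ⟨i, hi⟩ : α)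
    else Classical.arbitrary α, ?_⟩
  intro u hu
  refine ⟨⟨(s.equivFin ⟨u, hu⟩ : ℕ), lt_of_lt_of_le (s.equivFin ⟨u, hu⟩).2 h⟩, ?_⟩
  simp

/-- the moved points -/
noncomputable def mov (σ : Equiv.Perm α) : Finset α := Finset.univ.filter (fun u => σ u ≠ u)

theorem mem_mov (σ : Equiv.Perm α) (u : α) : u ∈ mov σ ↔ σ u ≠ u := by
  simp [mov]

/-- permutations with a small support -/
theorem card_perm_small [Nonempty α] (k : ℕ) :
    ((Finset.univ : Finset (Equiv.Perm α)).filter (fun σ => (mov σ).card ≤ k)).card ≤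
      Fintype.card α ^ (2 * k) := by
  have hc : ∀ σ : Equiv.Perm α, ∃ c : Fin k → α, (mov σ).card ≤ k →
      ∀ u ∈ mov σ, ∃ i, c i = u := by
    intro σ
    by_cases h : (mov σ).card ≤ k
    · obtain ⟨c, hc⟩ := exists_cover (mov σ) k h
      exact ⟨c, fun _ => hc⟩
    · exact ⟨fun _ => Classical.arbitrary α, fun h' => absurd h' h⟩
  choose c hc using hc
  have key : ((Finset.univ : Finset (Equiv.Perm α)).filter (fun σ => (mov σ).card ≤ k)).card ≤
      (Finset.univ : Finset ((Fin k → α) × (Fin k → α))).card := by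
    refine Finset.card_le_card_of_injOn (fun σ => (c σ, fun i => σ (c σ i)))
      (fun _ _ => Finset.mem_univ _) ?_
    intro σ hσ τ hτ h
    rw [Finset.mem_coe, Finset.mem_filter] at hσ hτ
    have h1 : c σ = c τ := congrArg Prod.fst h
    have h2 : (fun i => σ (c σ i)) = fun i => τ (c τ i) := congrArg Prod.snd h
    ext u
    by_cases hu : u ∈ mov σ
    · obtain ⟨i, hi⟩ := hc σ hσ.2 u hu
      have h3 : σ (c σ i) = τ (c τ i) := congrFun h2 i
      rw [← h1, hi] at h3
      exact h3
    · by_cases hu' : u ∈ mov τ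
      · obtain ⟨i, hi⟩ := hc τ hτ.2 u hu'
        have h3 : σ (c σ i) = τ (c τ i) := congrFun h2 i
        rw [h1, hi] at h3
        exact h3
      · have e1 : σ u = u := by
          by_contra h
          exact hu ((mem_mov _ _).2 h)
        have e2 : τ u = u := by
          by_contra h
          exact hu' ((mem_mov _ _).2 h)
        rw [e1, e2]
  refine key.trans (le_of_eq ?_)
  rw [Finset.card_univ, Fintype.card_prod, Fintype.card_fun, Fintype.card_fin, ← pow_add, two_mul]

theorem exists_indep (τ : Equiv.Perm α) (D : Finset α) (hD : ∀ x ∈ D, τ x ≠ x) :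
    ∃ X ⊆ D, (∀ x ∈ X, τ x ∉ X) ∧ D.card ≤ 3 * X.card := by
  obtain ⟨X, hX, hmax⟩ := Finset.exists_max_image
    ((Finset.univ : Finset (Finset α)).filter (fun X => X ⊆ D ∧ ∀ x ∈ X, τ x ∉ X)) Finset.card
    ⟨∅, by simp⟩
  simp only [Finset.mem_filter, Finset.mem_univ, true_and] at hX hmax
  refine ⟨X, hX.1, hX.2, ?_⟩
  have hsub : D ⊆ X ∪ (X.image τ ∪ X.image τ.symm) := by
    intro y hy
    by_contra hn
    simp only [Finset.mem_union, Finset.mem_image, not_or, not_exists, not_and] at hn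
    obtain ⟨h1, h2, h3⟩ := hn
    have hins : ∀ x ∈ insert y X, τ x ∉ insert y X := by
      intro x hx
      rw [Finset.mem_insert] at hx
      rcases hx with rfl | hx
      · rw [Finset.mem_insert, not_or]
        refine ⟨hD _ hy, fun h => h3 _ h (by simp)⟩
      · rw [Finset.mem_insert, not_or]
        exact ⟨h2 x hx, hX.2 x hx⟩
    have := hmax (insert y X) ⟨Finset.insert_subset hy hX.1, hins⟩
    rw [Finset.card_insert_of_notMem h1] at this
    omega
  have h1 := Finset.card_le_card hsub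
  have h2 := Finset.card_union_le X (X.image τ ∪ X.image τ.symm)
  have h3 := Finset.card_union_le (X.image τ) (X.image τ.symm)
  have h4 := Finset.card_image_le (s := X) (f := τ)
  have h5 := Finset.card_image_le (s := X) (f := τ.symm)
  omega

end perm

variable {n : ℕ}

/-- the graphs fixed by a permutation -/
noncomputable def fixed (σ : Equiv.Perm (Fin n)) : Finset (SimpleGraph (Fin n)) :=
  Finset.univ.filter (fun G => G.map (Equiv.toEmbedding σ) = G)

/-- the permutation of the pairs -/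
def s2 (σ : Equiv.Perm (Fin n)) : Equiv.Perm (Sym2 (Fin n)) where
  toFun := Sym2.map σ
  invFun := Sym2.map σ.symm
  left_inv e := by rw [Sym2.map_map]; simp
  right_inv e := by rw [Sym2.map_map]; simp

/-- the pairs moved by a permutation -/
noncomputable def movp (σ : Equiv.Perm (Fin n)) : Finset (Sym2 (Fin n)) :=
  (prs n).filter (fun e => s2 σ e ≠ e)

theorem sym2Congr_mk (σ : Equiv.Perm (Fin n)) (u v : Fin n) :
    s2 σ s(u, v) = s(σ u, σ v) := rfl

theorem card_movp (σ : Equiv.Perm (Fin n)) : (mov σ).card * (n - 2) ≤ 2 * (movp σ).card := by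
  set B : Finset (Fin n × Fin n) := (mov σ).sigma (fun u => (Finset.univ.erase u).erase (σ u))
    |>.map ⟨fun x => (x.1, x.2), by
      rintro ⟨a, b⟩ ⟨c, d⟩ h
      simp only [Prod.mk.injEq] at h
      obtain ⟨rfl, rfl⟩ := h
      rfl⟩ with hB
  have hcard : B.card = (mov σ).card * (n - 2) := by
    rw [hB, Finset.card_map, Finset.card_sigma]
    rw [Finset.sum_congr rfl (g := fun _ => n - 2)]
    · rw [Finset.sum_const, smul_eq_mul]
    · intro u hu
      rw [mem_mov] at hu
      rw [Finset.card_erase_of_mem, Finset.card_erase_of_mem, Finset.card_univ, Fintype.card_fin]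
      · omega
      · exact Finset.mem_univ _
      · rw [Finset.mem_erase]
        exact ⟨hu, Finset.mem_univ _⟩
  have himg : B.image (fun x => s(x.1, x.2)) ⊆ movp σ := by
    intro e he
    rw [Finset.mem_image] at he
    obtain ⟨⟨u, v⟩, hx, rfl⟩ := he
    rw [hB, Finset.mem_map] at hx
    obtain ⟨⟨a, b⟩, hab, hx⟩ := hx
    change (a, b) = (u, v) at hx
    rw [Prod.mk.injEq] at hx
    obtain ⟨rfl, rfl⟩ := hx
    rw [Finset.mem_sigma, Finset.mem_erase, Finset.mem_erase] at hab
    obtain ⟨h1, h2, h3, -⟩ := hab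
    rw [mem_mov] at h1
    rw [movp, Finset.mem_filter, prs, Finset.mem_filter]
    refine ⟨⟨Finset.mem_univ _, ?_⟩, ?_⟩
    · rw [Sym2.mk_isDiag_iff]
      exact fun h => h3 h.symm
    · rw [sym2Congr_mk]
      intro h
      rw [Sym2.eq_iff] at h
      rcases h with ⟨h, -⟩ | ⟨h, -⟩
      · exact h1 h
      · exact h2 h.symm
  have h2 : B.card ≤ 2 * (B.image (fun x => s(x.1, x.2))).card := by
    apply Finset.card_le_mul_card_image
    intro e _
    induction e using Sym2.ind with
    | _ u v =>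
      have : B.filter (fun x => s(x.1, x.2) = s(u, v)) ⊆ {(u, v), (v, u)} := by
        rintro ⟨a, b⟩ hab
        rw [Finset.mem_filter] at hab
        rw [Finset.mem_insert, Finset.mem_singleton]
        have h3 := hab.2
        simp only [Sym2.eq_iff] at h3
        rcases h3 with ⟨rfl, rfl⟩ | ⟨rfl, rfl⟩
        · exact Or.inl rfl
        · exact Or.inr rfl
      exact (Finset.card_le_card this).trans Finset.card_le_two
  rw [← hcard]
  exact h2.trans (Nat.mul_le_mul_left _ (Finset.card_le_card himg))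

theorem fixed_mem (σ : Equiv.Perm (Fin n)) (G : SimpleGraph (Fin n)) (hG : G ∈ fixed σ)
    (e : Sym2 (Fin n)) : e ∈ G.edgeSet ↔ s2 σ e ∈ G.edgeSet := by
  rw [fixed, Finset.mem_filter] at hG
  induction e using Sym2.ind with
  | _ u v =>
    rw [sym2Congr_mk, SimpleGraph.mem_edgeSet, SimpleGraph.mem_edgeSet]
    have h1 : (G.map (Equiv.toEmbedding σ)).Adj (σ u) (σ v) ↔ G.Adj u v :=
      SimpleGraph.map_adj_apply (f := Equiv.toEmbedding σ)
    rw [hG.2] at h1
    exact h1.symm

theorem card_fixed (σ : Equiv.Perm (Fin n)) : ∃ x : ℕ, (mov σ).card * (n - 2) ≤ 6 * x ∧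
    (fixed σ).card * 2 ^ x ≤ 2 ^ (n.choose 2) := by
  obtain ⟨X, hXD, hX, hc⟩ := exists_indep (s2 σ) (movp σ) (by
    intro x hx
    rw [movp, Finset.mem_filter] at hx
    exact hx.2)
  refine ⟨X.card, ?_, ?_⟩
  · have := card_movp σ
    omega
  have hXp : X ⊆ prs n := hXD.trans (Finset.filter_subset _ _)
  have h1 : (fixed σ).card ≤ (prs n \ X).powerset.card := by
    refine Finset.card_le_card_of_injOn
      (fun G => (Finset.univ.filter (fun e => e ∈ G.edgeSet)) \ X) ?_ ?_
    · intro G _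
      rw [Finset.mem_coe, Finset.mem_powerset]
      intro e he
      rw [Finset.mem_sdiff, Finset.mem_filter] at he
      rw [Finset.mem_sdiff, prs, Finset.mem_filter]
      exact ⟨⟨Finset.mem_univ _, G.not_isDiag_of_mem_edgeSet he.1.2⟩, he.2⟩
    · intro G hG H hH h
      have hout : ∀ e, e ∉ X → (e ∈ G.edgeSet ↔ e ∈ H.edgeSet) := by
        intro e he
        have h2 := congrArg (fun s => e ∈ s) h
        simp only [Finset.mem_sdiff, Finset.mem_filter, Finset.mem_univ, true_and, he,
          not_false_eq_true, and_true, eq_iff_iff] at h2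
        exact h2
      rw [← SimpleGraph.edgeSet_inj]
      ext e
      by_cases he : e ∈ X
      · rw [fixed_mem σ G hG e, fixed_mem σ H hH e]
        exact hout _ (hX e he)
      · exact hout e he
  rw [Finset.card_powerset, Finset.card_sdiff_of_subset hXp, card_prs] at h1
  have hle : X.card ≤ n.choose 2 := by
    rw [← card_prs]
    exact Finset.card_le_card hXp
  calc (fixed σ).card * 2 ^ X.card ≤ 2 ^ (n.choose 2 - X.card) * 2 ^ X.card :=
        Nat.mul_le_mul_right _ h1
    _ = 2 ^ (n.choose 2) := by rw [← pow_add]; congr 1; omega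

theorem fixed_one_le (hn : 1 ≤ n) (σ : Equiv.Perm (Fin n)) (hσ : σ ≠ 1)
    (hq : n ^ 8 ≤ 2 ^ ((n - 2) / 6)) :
    (fixed σ).card * (n ^ (2 * (mov σ).card) * n ^ 6) ≤ 2 ^ (n.choose 2) := by
  obtain ⟨x, hx1, hx2⟩ := card_fixed σ
  have hk : 1 ≤ (mov σ).card := by
    rw [Nat.one_le_iff_ne_zero, Ne, Finset.card_eq_zero]
    intro h
    apply hσ
    ext u
    by_contra hne
    have : u ∈ mov σ := (mem_mov _ _).2 (fun h' => hne (by rw [h']; rfl))
    rw [h] at this
    simp at this
  set k := (mov σ).card with hkdef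
  have h1 : k * ((n - 2) / 6) ≤ x := by
    have h2 : 6 * ((n - 2) / 6) ≤ n - 2 := Nat.mul_div_le _ _
    have h3 : k * (6 * ((n - 2) / 6)) ≤ k * (n - 2) := Nat.mul_le_mul_left _ h2
    nlinarith
  have h2 : n ^ (2 * k) * n ^ 6 ≤ 2 ^ x := by
    calc n ^ (2 * k) * n ^ 6 ≤ n ^ (2 * k) * n ^ (6 * k) := by
          apply Nat.mul_le_mul_left
          apply Nat.pow_le_pow_right hn
          omega
      _ = (n ^ 8) ^ k := by rw [← pow_add, ← pow_mul]; congr 1; ring
      _ ≤ (2 ^ ((n - 2) / 6)) ^ k := Nat.pow_le_pow_left hq _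
      _ = 2 ^ (k * ((n - 2) / 6)) := by rw [← pow_mul, mul_comm]
      _ ≤ 2 ^ x := Nat.pow_le_pow_right (by norm_num) h1
  exact (Nat.mul_le_mul_left _ h2).trans hx2

/-- the total number of graphs fixed by nontrivial permutations -/
theorem sum_fixed (hn : 1 ≤ n) (hq : n ^ 8 ≤ 2 ^ ((n - 2) / 6)) :
    (∑ σ ∈ (Finset.univ : Finset (Equiv.Perm (Fin n))).erase 1, ((fixed σ).card : ℝ)) *
      (n : ℝ) ^ 5 ≤ 2 ^ (n.choose 2) := by
  have hne : Nonempty (Fin n) := ⟨⟨0, hn⟩⟩
  have hn0 : (0 : ℝ) < n := by exact_mod_cast hn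
  have h1 : ∀ σ ∈ (Finset.univ : Finset (Equiv.Perm (Fin n))).erase 1,
      ((fixed σ).card : ℝ) ≤ 2 ^ (n.choose 2) / ((n : ℝ) ^ (2 * (mov σ).card) * (n : ℝ) ^ 6) := by
    intro σ hσ
    rw [Finset.mem_erase] at hσ
    rw [le_div_iff₀ (by positivity)]
    exact_mod_cast fixed_one_le hn σ hσ.1 hq
  have hmaps : ∀ σ ∈ (Finset.univ : Finset (Equiv.Perm (Fin n))).erase 1,
      (mov σ).card ∈ Finset.Icc 1 n := by
    intro σ hσ
    rw [Finset.mem_erase] at hσ
    rw [Finset.mem_Icc]
    constructor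
    · rw [Nat.one_le_iff_ne_zero, Ne, Finset.card_eq_zero]
      intro h
      apply hσ.1
      ext u
      by_contra hne'
      have : u ∈ mov σ := (mem_mov _ _).2 (fun h' => hne' (by rw [h']; rfl))
      rw [h] at this
      simp at this
    · have := Finset.card_le_univ (mov σ)
      rwa [Fintype.card_fin] at this
  have h2 : (∑ σ ∈ (Finset.univ : Finset (Equiv.Perm (Fin n))).erase 1, ((fixed σ).card : ℝ)) ≤
      ∑ k ∈ Finset.Icc 1 n, (2 : ℝ) ^ (n.choose 2) / (n : ℝ) ^ 6 := by
    refine (Finset.sum_le_sum h1).trans ?_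
    rw [← Finset.sum_fiberwise_of_maps_to hmaps]
    apply Finset.sum_le_sum
    intro k _
    have h3 : ∀ σ ∈ ((Finset.univ : Finset (Equiv.Perm (Fin n))).erase 1).filter
        (fun σ => (mov σ).card = k),
        (2 : ℝ) ^ (n.choose 2) / ((n : ℝ) ^ (2 * (mov σ).card) * (n : ℝ) ^ 6) =
          2 ^ (n.choose 2) / ((n : ℝ) ^ (2 * k) * (n : ℝ) ^ 6) := by
      intro σ hσ
      rw [Finset.mem_filter] at hσ
      rw [hσ.2]
    rw [Finset.sum_congr rfl h3, Finset.sum_const, nsmul_eq_mul]
    have h4 : ((((Finset.univ : Finset (Equiv.Perm (Fin n))).erase 1).filter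
        (fun σ => (mov σ).card = k)).card : ℝ) ≤ (n : ℝ) ^ (2 * k) := by
      have h5 := card_perm_small (α := Fin n) k
      rw [Fintype.card_fin] at h5
      have h6 : (((Finset.univ : Finset (Equiv.Perm (Fin n))).erase 1).filter
        (fun σ => (mov σ).card = k)).card ≤
        ((Finset.univ : Finset (Equiv.Perm (Fin n))).filter (fun σ => (mov σ).card ≤ k)).card := by
        apply Finset.card_le_card
        intro σ hσ
        rw [Finset.mem_filter] at hσ ⊢
        exact ⟨Finset.mem_univ _, hσ.2.le⟩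
      exact_mod_cast h6.trans h5
    have h7 : (n : ℝ) ^ (2 * k) * (2 ^ (n.choose 2) / ((n : ℝ) ^ (2 * k) * (n : ℝ) ^ 6)) =
        (2 : ℝ) ^ (n.choose 2) / (n : ℝ) ^ 6 := by
      generalize (2 : ℝ) ^ (n.choose 2) = W
      have h8 : (0 : ℝ) < (n : ℝ) ^ (2 * k) := by positivity
      generalize (n : ℝ) ^ (2 * k) = Y at h8
      field_simp
    rw [← h7]
    exact mul_le_mul_of_nonneg_right h4 (by positivity)
  rw [Finset.sum_const, Nat.card_Icc, Nat.add_sub_cancel, nsmul_eq_mul] at h2
  have h9 : (n : ℝ) * ((2 : ℝ) ^ (n.choose 2) / (n : ℝ) ^ 6) * (n : ℝ) ^ 5 =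
      2 ^ (n.choose 2) := by
    generalize (2 : ℝ) ^ (n.choose 2) = W
    field_simp
  rw [← h9]
  exact mul_le_mul_of_nonneg_right h2 (by positivity)

end Pool.Agent.AG13
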