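import Mathlib
import Pool.Agent.AG13.Sym

/-!
Classes of graphs: Burnside, and a sharper count of the properties with few minimal graphs.
-/

set_option autoImplicit false
set_option linter.unusedSectionVars false
open Classical

namespace Pool.Agent.AG13

variable {n : ℕ}

theorem map_one (G : SimpleGraph (Fin n)) :
    G.map (Equiv.toEmbedding (1 : Equiv.Perm (Fin n))) = G := by
  ext u v
  rw [SimpleGraph.map_adj]
  simp

theorem map_mul (σ τ : Equiv.Perm (Fin n)) (G : SimpleGraph (Fin n)) :
    G.map (Equiv.toEmbedding (σ * τ)) = (G.map (Equiv.toEmbedding τ)).map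
      (Equiv.toEmbedding σ) := by
  ext u v
  simp only [SimpleGraph.map_adj]
  constructor
  · rintro ⟨a, b, hab, rfl, rfl⟩
    exact ⟨τ a, τ b, ⟨a, b, hab, rfl, rfl⟩, rfl, rfl⟩
  · rintro ⟨a, b, ⟨c, d, hcd, rfl, rfl⟩, rfl, rfl⟩
    exact ⟨c, d, hcd, rfl, rfl⟩

/-- the action of the permutations on the graphs -/
@[reducible] def actG (n : ℕ) : MulAction (Equiv.Perm (Fin n)) (SimpleGraph (Fin n)) where
  smul σ G := G.map (Equiv.toEmbedding σ)
  one_smul G := map_one G
  mul_smul σ τ G := map_mul σ τ G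

attribute [local instance] actG

theorem smul_def (σ : Equiv.Perm (Fin n)) (G : SimpleGraph (Fin n)) :
    σ • G = G.map (Equiv.toEmbedding σ) := rfl

/-- isomorphism classes -/
abbrev Cl (n : ℕ) : Type := Quotient (MulAction.orbitRel (Equiv.Perm (Fin n))
  (SimpleGraph (Fin n)))

/-- no nontrivial automorphism -/
def asym (G : SimpleGraph (Fin n)) : Prop := ∀ σ : Equiv.Perm (Fin n), σ • G = G → σ = 1

theorem asym_smul (τ : Equiv.Perm (Fin n)) (G : SimpleGraph (Fin n)) (h : asym G) :
    asym (τ • G) := by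
  intro σ hσ
  have h1 : (τ⁻¹ * σ * τ) • G = G := by
    rw [mul_smul, mul_smul, hσ, inv_smul_smul]
  have h2 := h _ h1
  have h3 : σ = τ * (τ⁻¹ * σ * τ) * τ⁻¹ := by group
  rw [h3, h2]
  group

theorem exists_out (G : SimpleGraph (Fin n)) : ∃ σ : Equiv.Perm (Fin n),
    σ • (Quotient.mk (MulAction.orbitRel (Equiv.Perm (Fin n)) (SimpleGraph (Fin n))) G).out =
      G := by
  have h1 := Quotient.exact (Quotient.out_eq (Quotient.mk (MulAction.orbitRel
    (Equiv.Perm (Fin n)) (SimpleGraph (Fin n))) G))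
  have h2 := (MulAction.orbitRel (Equiv.Perm (Fin n)) (SimpleGraph (Fin n))).symm h1
  obtain ⟨σ, hσ⟩ := h2
  exact ⟨σ, hσ⟩

theorem mk_smul (σ : Equiv.Perm (Fin n)) (G : SimpleGraph (Fin n)) :
    Quotient.mk (MulAction.orbitRel (Equiv.Perm (Fin n)) (SimpleGraph (Fin n))) (σ • G) =
      Quotient.mk _ G := by
  apply Quotient.sound
  exact ⟨σ, rfl⟩

theorem burnside : Fintype.card (Cl n) * n.factorial =
    2 ^ (n.choose 2) + ∑ σ ∈ (Finset.univ : Finset (Equiv.Perm (Fin n))).erase 1,
      (fixed σ).card := by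
  have hB := MulAction.sum_card_fixedBy_eq_card_orbits_mul_card_group
    (Equiv.Perm (Fin n)) (SimpleGraph (Fin n))
  rw [Fintype.card_perm, Fintype.card_fin] at hB
  rw [← hB, ← Finset.add_sum_erase _ _ (Finset.mem_univ (1 : Equiv.Perm (Fin n)))]
  have h1 : ∀ σ : Equiv.Perm (Fin n),
      Fintype.card (MulAction.fixedBy (SimpleGraph (Fin n)) σ) = (fixed σ).card := by
    intro σ
    rw [fixed, ← Fintype.card_subtype]
    apply Fintype.card_congr
    exact Equiv.refl _
  have h2 : (fixed (1 : Equiv.Perm (Fin n))).card = 2 ^ (n.choose 2) := by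
    rw [← card_graphs, ← Finset.card_univ]
    congr 1
    rw [fixed, Finset.filter_eq_self]
    intro G _
    exact map_one G
  rw [h1, h2]
  congr 1
  apply Finset.sum_congr rfl
  intro σ _
  exact (h1 σ)

theorem card_add_not {β : Type} [Fintype β] (p : β → Prop) :
    Fintype.card {b : β // p b} + Fintype.card {b : β // ¬ p b} = Fintype.card β := by
  rw [← Fintype.card_sum]
  exact Fintype.card_congr (Equiv.sumCompl p)

/-- few classes have a nontrivial automorphism -/
theorem sym_classes : Fintype.card {c : Cl n // ¬ asym c.out} * n.factorial ≤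
    2 * ∑ σ ∈ (Finset.univ : Finset (Equiv.Perm (Fin n))).erase 1, (fixed σ).card := by
  have h1 := burnside (n := n)
  have h2 : Fintype.card {G : SimpleGraph (Fin n) // asym G} ≤
      Fintype.card {c : Cl n // asym c.out} * n.factorial := by
    have hsurj : Function.Surjective (fun x : {c : Cl n // asym c.out} × Equiv.Perm (Fin n) =>
        (⟨x.2 • x.1.1.out, asym_smul _ _ x.1.2⟩ : {G : SimpleGraph (Fin n) // asym G})) := by
      rintro ⟨G, hG⟩
      obtain ⟨σ, hσ⟩ := exists_out G
      refine ⟨(⟨Quotient.mk _ G, ?_⟩, σ), Subtype.ext hσ⟩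
      have := asym_smul σ⁻¹ G hG
      rw [← hσ, inv_smul_smul] at this
      exact this
    have := Fintype.card_le_of_surjective _ hsurj
    rw [Fintype.card_prod, Fintype.card_perm, Fintype.card_fin] at this
    exact this
  have h3 : Fintype.card {G : SimpleGraph (Fin n) // ¬ asym G} ≤
      ∑ σ ∈ (Finset.univ : Finset (Equiv.Perm (Fin n))).erase 1, (fixed σ).card := by
    rw [Fintype.card_subtype]
    refine le_trans (Finset.card_le_card ?_) Finset.card_biUnion_le
    intro G hG
    rw [Finset.mem_filter] at hG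
    have h4 := hG.2
    unfold asym at h4
    push Not at h4
    obtain ⟨σ, hσ, hne⟩ := h4
    rw [Finset.mem_biUnion]
    refine ⟨σ, Finset.mem_erase.2 ⟨hne, Finset.mem_univ _⟩, ?_⟩
    rw [fixed, Finset.mem_filter]
    exact ⟨Finset.mem_univ _, hσ⟩
  have h5 : Fintype.card {G : SimpleGraph (Fin n) // asym G} +
      Fintype.card {G : SimpleGraph (Fin n) // ¬ asym G} = 2 ^ (n.choose 2) := by
    rw [← card_graphs]
    exact card_add_not _
  have h6 : Fintype.card {c : Cl n // asym c.out} + Fintype.card {c : Cl n // ¬ asym c.out} =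
      Fintype.card (Cl n) :=
    card_add_not _
  have h7 : Fintype.card {c : Cl n // asym c.out} * n.factorial +
      Fintype.card {c : Cl n // ¬ asym c.out} * n.factorial =
      Fintype.card (Cl n) * n.factorial := by rw [← add_mul, h6]
  linarith

theorem mem_minSet {V : Type} [Fintype V] (P : SimpleGraph V → Prop) (G : SimpleGraph V) :
    G ∈ minSet P ↔ P G ∧ ∀ G' < G, ¬ P G' := by
  rw [minSet, Finset.mem_filter]
  exact ⟨fun h => h.2, fun h => ⟨Finset.mem_univ _, h⟩⟩

theorem smul_mono (A B : SimpleGraph (Fin n)) (τ : Equiv.Perm (Fin n)) (hAB : A ≤ B) :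
    τ • A ≤ τ • B := by
  rw [smul_def, smul_def]
  intro u v huv
  rw [SimpleGraph.map_adj] at huv ⊢
  obtain ⟨a, b, hab, h1, h2⟩ := huv
  exact ⟨a, b, hAB hab, h1, h2⟩

theorem minSet_smul (P : SimpleGraph (Fin n) → Prop) (hP : IsProp P) (σ : Equiv.Perm (Fin n))
    (G : SimpleGraph (Fin n)) (hG : G ∈ minSet P) : σ • G ∈ minSet P := by
  rw [mem_minSet] at hG ⊢
  obtain ⟨h1, h2⟩ := hG
  have hP1 : ∀ (τ : Equiv.Perm (Fin n)) (H : SimpleGraph (Fin n)), P (τ • H) ↔ P H := hP.1
  refine ⟨(hP1 σ G).2 h1, ?_⟩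
  intro G' hG' hPG'
  have h3 : σ⁻¹ • G' < G := by
    refine lt_of_le_of_ne ?_ ?_
    · have := smul_mono _ _ σ⁻¹ hG'.le
      rwa [inv_smul_smul] at this
    · intro h
      apply hG'.ne
      rw [← h, smul_inv_smul]
  exact h2 _ h3 ((hP1 σ⁻¹ G').2 hPG')

theorem minSet_iff (P : SimpleGraph (Fin n) → Prop) (hP : IsProp P) (G : SimpleGraph (Fin n)) :
    G ∈ minSet P ↔ (Quotient.mk (MulAction.orbitRel (Equiv.Perm (Fin n))
      (SimpleGraph (Fin n))) G).out ∈ minSet P := by
  obtain ⟨σ, hσ⟩ := exists_out G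
  constructor
  · intro h
    have h1 := minSet_smul P hP σ⁻¹ G h
    rw [← hσ, inv_smul_smul] at h1
    exact h1
  · intro h
    have h1 := minSet_smul P hP σ _ h
    rw [hσ] at h1
    exact h1

theorem asym_part (P : SimpleGraph (Fin n) → Prop) (hP : IsProp P) :
    (Finset.univ.filter (fun c : {c : Cl n // asym c.out} => c.1.out ∈ minSet P)).card *
      n.factorial ≤ (minSet P).card := by
  have h1 : ((Finset.univ.filter (fun c : {c : Cl n // asym c.out} => c.1.out ∈ minSet P)) ×ˢ
      (Finset.univ : Finset (Equiv.Perm (Fin n)))).card ≤ (minSet P).card := by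
    refine Finset.card_le_card_of_injOn (fun x => x.2 • x.1.1.out) ?_ ?_
    · rintro ⟨c, σ⟩ hx
      rw [Finset.mem_coe, Finset.mem_product, Finset.mem_filter] at hx
      exact minSet_smul P hP σ _ hx.1.2
    · rintro ⟨⟨c, hc⟩, σ⟩ _ ⟨⟨c', hc'⟩, σ'⟩ _ h
      simp only at h
      have h2 : c = c' := by
        have h3 := congrArg (Quotient.mk (MulAction.orbitRel (Equiv.Perm (Fin n))
          (SimpleGraph (Fin n)))) h
        rw [mk_smul, mk_smul, Quotient.out_eq, Quotient.out_eq] at h3
        exact h3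
      subst h2
      have h4 : (σ'⁻¹ * σ) • c.out = c.out := by
        rw [mul_smul, h, inv_smul_smul]
      have h5 := hc _ h4
      have h6 : σ = σ' := by
        have : σ' * (σ'⁻¹ * σ) = σ' * 1 := by rw [h5]
        simpa using this
      rw [h6]
  rw [Finset.card_product, Finset.card_univ, Fintype.card_perm, Fintype.card_fin] at h1
  exact h1

/-- sharper count of the properties with few minimal graphs -/
theorem card_few' (m : ℕ) :
    Nat.card {P : SimpleGraph (Fin n) → Prop // IsProp P ∧ (minSet P).card ≤ m} ≤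
      2 ^ Fintype.card {c : Cl n // ¬ asym c.out} *
        (2 ^ (n.choose 2) + 1) ^ (m / n.factorial) := by
  have h1 := card_small {c : Cl n // asym c.out} (m / n.factorial)
  have hcl : Fintype.card {c : Cl n // asym c.out} ≤ 2 ^ (n.choose 2) := by
    rw [← card_graphs]
    apply Fintype.card_le_of_injective (fun c => c.1.out)
    intro c c' h
    apply Subtype.ext
    have := congrArg (Quotient.mk (MulAction.orbitRel (Equiv.Perm (Fin n))
      (SimpleGraph (Fin n)))) h
    rwa [Quotient.out_eq, Quotient.out_eq] at this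
  have h2 : Nat.card {S : Finset {c : Cl n // asym c.out} // S.card ≤ m / n.factorial} ≤
      (2 ^ (n.choose 2) + 1) ^ (m / n.factorial) :=
    h1.trans (Nat.pow_le_pow_left (by omega) _)
  have h3 : Nat.card ({c : Cl n // ¬ asym c.out} → Prop) =
      2 ^ Fintype.card {c : Cl n // ¬ asym c.out} := by
    rw [Nat.card_eq_fintype_card, Fintype.card_fun, Fintype.card_prop]
  rw [← h3]
  refine le_trans ?_ (Nat.mul_le_mul_left _ h2)
  rw [← Nat.card_prod]
  refine Nat.card_le_card_of_injective
    (fun P : {P : SimpleGraph (Fin n) → Prop // IsProp P ∧ (minSet P).card ≤ m} =>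
      ((fun c : {c : Cl n // ¬ asym c.out} => c.1.out ∈ minSet P.1),
        (⟨Finset.univ.filter (fun c : {c : Cl n // asym c.out} => c.1.out ∈ minSet P.1), by
          rw [Nat.le_div_iff_mul_le n.factorial_pos]
          exact (asym_part P.1 P.2.1).trans P.2.2⟩ :
          {S : Finset {c : Cl n // asym c.out} // S.card ≤ m / n.factorial}))) ?_
  rintro ⟨P, hP, hm⟩ ⟨P', hP', hm'⟩ h
  simp only [Prod.mk.injEq, Subtype.mk.injEq] at h
  obtain ⟨ha, hb⟩ := h
  have hmin : ∀ G, G ∈ minSet P ↔ G ∈ minSet P' := by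
    intro G
    rw [minSet_iff P hP, minSet_iff P' hP']
    by_cases hc : asym (Quotient.mk (MulAction.orbitRel (Equiv.Perm (Fin n))
      (SimpleGraph (Fin n))) G).out
    · have := congrArg (fun S => (⟨Quotient.mk _ G, hc⟩ : {c : Cl n // asym c.out}) ∈ S) hb
      simp only [Finset.mem_filter, Finset.mem_univ, true_and, eq_iff_iff] at this
      exact this
    · exact iff_of_eq (congrFun ha ⟨Quotient.mk _ G, hc⟩)
  apply Subtype.ext
  funext G
  apply propext
  change P G ↔ P' G
  rw [iff_minSet P hP.2.1, iff_minSet P' hP'.2.1]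
  constructor
  · rintro ⟨H, hH, hle⟩
    exact ⟨H, (hmin H).1 hH, hle⟩
  · rintro ⟨H, hH, hle⟩
    exact ⟨H, (hmin H).2 hH, hle⟩

end Pool.Agent.AG13
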