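import Mathlib
import Pool.Agent.AG13.Count

/-!
Almost all monotone graph properties: the numerical part and the conclusion.
-/

set_option autoImplicit false
open Classical

namespace Pool.Agent.AG13

theorem two_pow_factorial (n : ℕ) (hn : 6 ≤ n) : 2 ^ n * n.factorial ≤ n ^ n := by
  induction n, hn using Nat.le_induction with
  | base => decide
  | succ n hn ih =>
    have h1 : 2 * n ^ n ≤ (n + 1) ^ n := by
      have hn0 : (0 : ℝ) < n := by
        have : 0 < n := by omega
        exact_mod_cast this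
      have h2 := one_add_mul_le_pow (show (-2 : ℝ) ≤ 1 / n by
        have : (0 : ℝ) ≤ 1 / n := by positivity
        linarith) n
      have h3 : (1 : ℝ) + n * (1 / n) = 2 := by field_simp; norm_num
      rw [h3] at h2
      have h4 : (2 : ℝ) * (n : ℝ) ^ n ≤ ((n : ℝ) + 1) ^ n := by
        calc (2 : ℝ) * (n : ℝ) ^ n ≤ (1 + 1 / n) ^ n * (n : ℝ) ^ n := by gcongr
          _ = ((n : ℝ) + 1) ^ n := by
            rw [← mul_pow]
            congr 1
            field_simp
      exact_mod_cast h4
    calc 2 ^ (n + 1) * (n + 1).factorial = 2 * (n + 1) * (2 ^ n * n.factorial) := by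
          rw [Nat.factorial_succ, pow_succ]; ring
      _ ≤ 2 * (n + 1) * n ^ n := Nat.mul_le_mul_left _ ih
      _ = (n + 1) * (2 * n ^ n) := by ring
      _ ≤ (n + 1) * (n + 1) ^ n := Nat.mul_le_mul_left _ h1
      _ = (n + 1) ^ (n + 1) := by rw [pow_succ]; ring

theorem choose_step (n : ℕ) : (n + 1).choose 2 = n.choose 2 + n := by
  rw [Nat.choose_succ_succ' n 1, Nat.choose_one_right]
  ring

theorem six_mul (n : ℕ) (hn : 13 ≤ n) : 6 * n ≤ n.choose 2 := by
  induction n, hn using Nat.le_induction with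
  | base => decide
  | succ n hn ih => rw [choose_step]; omega

theorem quad_le (n : ℕ) (hn : 13 ≤ n) : (n.choose 2 + 1) * (n.choose 2 + 2) ≤ 2 ^ n := by
  induction n, hn using Nat.le_induction with
  | base => decide
  | succ n hn ih =>
    have h6 := six_mul n hn
    rw [choose_step, pow_succ]
    nlinarith

theorem numb (n : ℕ) (hn : 13 ≤ n) :
    (n.choose 2 + 1) * (n.choose 2 + 2) * n.factorial ≤ n ^ n :=
  (Nat.mul_le_mul_right _ (quad_le n hn)).trans (two_pow_factorial n (by omega))

/-- the number of nontrivial monotone graph properties is doubly exponential -/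
theorem exists_K (n : ℕ) (hn : 13 ≤ n) : ∃ K : ℕ,
    2 ^ (n.choose 2) ≤ K * n.factorial * (n.choose 2 + 1) ∧
    2 ^ K ≤ Nat.card {P : SimpleGraph (Fin n) → Prop // IsProp P} := by
  obtain ⟨M, hM, hlay⟩ := exists_layer n
  have h6 := six_mul n hn
  have hN : n.choose 2 + 1 < 2 ^ (n.choose 2) := by
    have h1 : ∀ m : ℕ, 2 ≤ m → m + 1 < 2 ^ m := by
      intro m hm
      induction m, hm using Nat.le_induction with
      | base => decide
      | succ m hm ih => rw [pow_succ]; omega
    exact h1 _ (by omega)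
  have hsub : ∀ G₀ : SimpleGraph (Fin n), (∀ G : SimpleGraph (Fin n), ec G = M → G = G₀) →
      False := by
    intro G₀ h
    have h1 : Nat.card {G : SimpleGraph (Fin n) // ec G = M} ≤ 1 := by
      rw [Finite.card_le_one_iff_subsingleton]
      exact ⟨fun a b => Subtype.ext ((h a.1 a.2).trans (h b.1 b.2).symm)⟩
    have h2 := Nat.mul_le_mul_right (n.choose 2 + 1) h1
    omega
  have hM0 : 0 < M := by
    rcases Nat.eq_zero_or_pos M with h | h
    · exfalso
      apply hsub ⊥
      intro G hG
      exact (ec_eq (bot_le : ⊥ ≤ G) (by rw [ec_bot, hG, h])).symm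
    · exact h
  have hM1 : M < n.choose 2 := by
    rcases hM.lt_or_eq with h | h
    · exact h
    · exfalso
      apply hsub ⊤
      intro G hG
      exact ec_eq (le_top : G ≤ ⊤) (by rw [ec_top, hG, h])
  refine ⟨Nat.card (Quotient (sL n M)), ?_, card_many M hM0 hM1⟩
  exact hlay.trans (Nat.mul_le_mul_right _ (card_layer n M))

/-- Properties such that few minimal graphs form a tiny share. -/
theorem share (n : ℕ) (hn : 13 ≤ n) (Good : (SimpleGraph (Fin n) → Prop) → Prop)
    (hgood : ∀ P : SimpleGraph (Fin n) → Prop, IsProp P →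
      (n.choose 2 : ℝ) - n * Real.logb 2 n ≤ Real.logb 2 (minSet P).card → Good P) :
    (Nat.card {P : SimpleGraph (Fin n) → Prop // IsProp P ∧ ¬ Good P} : ℝ) ≤
      (2 : ℝ) ^ (-((2 : ℝ) ^ ((n.choose 2 : ℝ) - n * Real.logb 2 n))) *
        Nat.card {P : SimpleGraph (Fin n) → Prop // IsProp P} := by
  set N := n.choose 2 with hN
  have hn0 : (0 : ℝ) < n := by
    have : 0 < n := by omega
    exact_mod_cast this
  have hT : (2 : ℝ) ^ ((N : ℝ) - n * Real.logb 2 n) = 2 ^ N / (n : ℝ) ^ n := by
    rw [Real.rpow_sub (by norm_num), Real.rpow_natCast, mul_comm, Real.rpow_mul (by norm_num),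
      Real.rpow_logb (by norm_num) (by norm_num) hn0, Real.rpow_natCast]
  set t : ℝ := (2 : ℝ) ^ ((N : ℝ) - n * Real.logb 2 n) with ht
  have ht0 : 0 < t := by positivity
  set m : ℕ := ⌊t⌋₊ with hm
  have hmt : (m : ℝ) ≤ t := Nat.floor_le ht0.le
  obtain ⟨K, hK1, hK2⟩ := exists_K n hn
  -- bad properties have few minimal graphs
  have hbad : Nat.card {P : SimpleGraph (Fin n) → Prop // IsProp P ∧ ¬ Good P} ≤
      Nat.card {P : SimpleGraph (Fin n) → Prop // IsProp P ∧ (minSet P).card ≤ m} := by
    refine Nat.card_le_card_of_injective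
      (fun P : {P : SimpleGraph (Fin n) → Prop // IsProp P ∧ ¬ Good P} =>
        (⟨P.1, P.2.1, by
          by_contra hcon
          push Not at hcon
          apply P.2.2
          apply hgood P.1 P.2.1
          have h1 : t < (minSet P.1).card := by
            have := (Nat.floor_lt ht0.le).1 hcon
            exact this
          rw [Real.le_logb_iff_rpow_le (by norm_num) (ht0.trans h1)]
          exact h1.le⟩ : {P : SimpleGraph (Fin n) → Prop // IsProp P ∧ (minSet P).card ≤ m})) ?_
    intro P P' h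
    simp only [Subtype.mk.injEq] at h
    exact Subtype.ext h
  have h2 : (Nat.card {P : SimpleGraph (Fin n) → Prop // IsProp P ∧ ¬ Good P} : ℝ) ≤
      (2 : ℝ) ^ (((N : ℝ) + 1) * t) := by
    have h3 := hbad.trans (card_few m)
    rw [card_graphs, ← hN] at h3
    have h4 : (2 ^ N + 1) ^ m ≤ 2 ^ ((N + 1) * m) := by
      rw [pow_mul]
      apply Nat.pow_le_pow_left
      rw [pow_succ]
      have := Nat.one_le_two_pow (n := N)
      omega
    have h5 : (Nat.card {P : SimpleGraph (Fin n) → Prop // IsProp P ∧ ¬ Good P} : ℝ) ≤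
        (2 : ℝ) ^ ((N + 1) * m) := by exact_mod_cast h3.trans h4
    refine h5.trans ?_
    rw [← Real.rpow_natCast]
    apply Real.rpow_le_rpow_of_exponent_le (by norm_num)
    push_cast
    exact mul_le_mul_of_nonneg_left hmt (by positivity)
  have h6 : ((N : ℝ) + 2) * t ≤ K := by
    have hnum := numb n hn
    rw [← hN] at hnum hK1
    have hnum' : ((N : ℝ) + 1) * (N + 2) * n.factorial ≤ (n : ℝ) ^ n := by exact_mod_cast hnum
    have hK' : (2 : ℝ) ^ N ≤ K * n.factorial * (N + 1) := by exact_mod_cast hK1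
    rw [hT, mul_div_assoc', div_le_iff₀ (by positivity)]
    have hf : (0 : ℝ) < n.factorial := by exact_mod_cast n.factorial_pos
    calc ((N : ℝ) + 2) * 2 ^ N ≤ (N + 2) * (K * n.factorial * (N + 1)) := by gcongr
      _ = K * ((N + 1) * (N + 2) * n.factorial) := by ring
      _ ≤ K * (n : ℝ) ^ n := by gcongr
  have h7 : (2 : ℝ) ^ (K : ℝ) ≤ Nat.card {P : SimpleGraph (Fin n) → Prop // IsProp P} := by
    rw [Real.rpow_natCast]
    exact_mod_cast hK2
  calc _ ≤ (2 : ℝ) ^ (((N : ℝ) + 1) * t) := h2
    _ ≤ (2 : ℝ) ^ (-t + K) := by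
        apply Real.rpow_le_rpow_of_exponent_le (by norm_num)
        linarith
    _ = (2 : ℝ) ^ (-t) * (2 : ℝ) ^ (K : ℝ) := by rw [Real.rpow_add (by norm_num)]
    _ ≤ _ := by gcongr

end Pool.Agent.AG13
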