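import Mathlib
import Pool.Agent.AG13.Final
import Pool.Agent.AG13.Burn

/-!
Almost all monotone graph properties have at least `2 ^ (C(n,2) - 4 log₂ n)` minimal graphs.
-/

set_option autoImplicit false
open Classical

namespace Pool.Agent.AG13

theorem six_pow (j : ℕ) (hj : 74 ≤ j) : (6 * j + 7) ^ 8 ≤ 2 ^ j := by
  induction j, hj using Nat.le_induction with
  | base => norm_num
  | succ j hj ih =>
    have h1 : 12 * (6 * (j + 1) + 7) ≤ 13 * (6 * j + 7) := by omega
    have h2 : (12 * (6 * (j + 1) + 7)) ^ 8 ≤ (13 * (6 * j + 7)) ^ 8 := Nat.pow_le_pow_left h1 8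
    rw [mul_pow, mul_pow] at h2
    have h3 : 12 ^ 8 * (6 * (j + 1) + 7) ^ 8 ≤ 12 ^ 8 * (2 * (6 * j + 7) ^ 8) := by
      refine h2.trans ?_
      have h4 : 13 ^ 8 ≤ 12 ^ 8 * 2 := by norm_num
      calc 13 ^ 8 * (6 * j + 7) ^ 8 ≤ (12 ^ 8 * 2) * (6 * j + 7) ^ 8 :=
            Nat.mul_le_mul_right _ h4
        _ = 12 ^ 8 * (2 * (6 * j + 7) ^ 8) := by ring
    have h5 := Nat.le_of_mul_le_mul_left h3 (by norm_num)
    calc (6 * (j + 1) + 7) ^ 8 ≤ 2 * (6 * j + 7) ^ 8 := h5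
      _ ≤ 2 * 2 ^ j := Nat.mul_le_mul_left _ ih
      _ = 2 ^ (j + 1) := by ring

theorem pow_eight_le (n : ℕ) (hn : 450 ≤ n) : n ^ 8 ≤ 2 ^ ((n - 2) / 6) := by
  have h1 : 74 ≤ (n - 2) / 6 := by omega
  have h2 : n ≤ 6 * ((n - 2) / 6) + 7 := by omega
  exact (Nat.pow_le_pow_left h2 8).trans (six_pow _ h1)

theorem two_choose_le (n : ℕ) (hn : 2 ≤ n) : 2 * (n.choose 2 + 1) ≤ n ^ 2 := by
  induction n, hn using Nat.le_induction with
  | base => decide
  | succ n hn ih =>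
    rw [choose_step]
    nlinarith

theorem share' (n : ℕ) (hn : 450 ≤ n) (Good : (SimpleGraph (Fin n) → Prop) → Prop)
    (hgood : ∀ P : SimpleGraph (Fin n) → Prop, IsProp P →
      (n.choose 2 : ℝ) - 4 * Real.logb 2 n ≤ Real.logb 2 (minSet P).card → Good P) :
    (Nat.card {P : SimpleGraph (Fin n) → Prop // IsProp P ∧ ¬ Good P} : ℝ) ≤
      (2 : ℝ) ^ (-((2 : ℝ) ^ ((n.choose 2 : ℝ) - n * Real.logb 2 n))) *
        Nat.card {P : SimpleGraph (Fin n) → Prop // IsProp P} := by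
  have hnum := numb n (by omega)
  have hq := pow_eight_le n hn
  have hsum := sum_fixed (n := n) (by omega) hq
  have hsym := sym_classes (n := n)
  have hch := two_choose_le n (by omega)
  obtain ⟨K, hK1, hK2⟩ := exists_K n (by omega)
  have hfew := fun m => card_few' (n := n) m
  have hgr := card_graphs (n := n)
  set s := Fintype.card {c : Cl n // ¬ asym c.out} with hs
  set S := ∑ σ ∈ (Finset.univ : Finset (Equiv.Perm (Fin n))).erase 1, (fixed σ).card with hS
  have hSr : (∑ σ ∈ (Finset.univ : Finset (Equiv.Perm (Fin n))).erase 1,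
      ((fixed σ).card : ℝ)) = (S : ℝ) := by rw [hS]; push_cast; rfl
  rw [hSr] at hsum
  clear_value s S
  clear hSr
  set N := n.choose 2 with hN
  clear_value N
  have hn1 : (450 : ℝ) ≤ n := by exact_mod_cast hn
  have hn0 : (0 : ℝ) < n := by linarith
  set F : ℝ := (n.factorial : ℝ) with hF
  have hF0 : 0 < F := by rw [hF]; exact_mod_cast n.factorial_pos
  have hT : (2 : ℝ) ^ ((N : ℝ) - n * Real.logb 2 n) = 2 ^ N / (n : ℝ) ^ n := by
    rw [Real.rpow_sub (by norm_num), Real.rpow_natCast, mul_comm, Real.rpow_mul (by norm_num),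
      Real.rpow_logb (by norm_num) (by norm_num) hn0, Real.rpow_natCast]
  have ht : (2 : ℝ) ^ ((N : ℝ) - 4 * Real.logb 2 n) = 2 ^ N / (n : ℝ) ^ 4 := by
    rw [Real.rpow_sub (by norm_num), Real.rpow_natCast, mul_comm, Real.rpow_mul (by norm_num),
      Real.rpow_logb (by norm_num) (by norm_num) hn0]
    norm_num
  set T : ℝ := (2 : ℝ) ^ ((N : ℝ) - n * Real.logb 2 n) with hTdef
  set t : ℝ := (2 : ℝ) ^ ((N : ℝ) - 4 * Real.logb 2 n) with htdef
  have ht0 : 0 < t := by positivity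
  clear_value T t
  set W : ℝ := (2 : ℝ) ^ N with hW
  have hW0 : 0 < W := by positivity
  set m : ℕ := ⌊t⌋₊ with hm
  have hmt : (m : ℝ) ≤ t := Nat.floor_le ht0.le
  have hmf : ((m / n.factorial : ℕ) : ℝ) ≤ t / F :=
    Nat.cast_div_le.trans (div_le_div_of_nonneg_right hmt hF0.le)
  -- bad properties have few minimal graphs
  have hbad : Nat.card {P : SimpleGraph (Fin n) → Prop // IsProp P ∧ ¬ Good P} ≤
      Nat.card {P : SimpleGraph (Fin n) → Prop // IsProp P ∧ (minSet P).card ≤ m} := by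
    refine Nat.card_le_card_of_injective
      (fun P : {P : SimpleGraph (Fin n) → Prop // IsProp P ∧ ¬ Good P} =>
        (⟨P.1, P.2.1, by
          by_contra hcon
          push Not at hcon
          apply P.2.2
          apply hgood P.1 P.2.1
          have h1 : t < (minSet P.1).card := by
            have := (Nat.floor_lt ht0.le).1 hcon
            exact this
          rw [Real.le_logb_iff_rpow_le (by norm_num) (ht0.trans h1), ← htdef]
          exact h1.le⟩ : {P : SimpleGraph (Fin n) → Prop // IsProp P ∧ (minSet P).card ≤ m})) ?_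
    intro P P' h
    simp only [Subtype.mk.injEq] at h
    exact Subtype.ext h
  have h2 : (Nat.card {P : SimpleGraph (Fin n) → Prop // IsProp P ∧ ¬ Good P} : ℝ) ≤
      (2 : ℝ) ^ ((s : ℝ) + ((N : ℝ) + 1) * (t / F)) := by
    have h3 := hbad.trans (hfew m)
    have h4 : (2 ^ N + 1) ^ (m / n.factorial) ≤ 2 ^ ((N + 1) * (m / n.factorial)) := by
      rw [pow_mul]
      apply Nat.pow_le_pow_left
      rw [pow_succ]
      have := Nat.one_le_two_pow (n := N)
      omega
    have h5 : (Nat.card {P : SimpleGraph (Fin n) → Prop // IsProp P ∧ ¬ Good P} : ℝ) ≤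
        (2 : ℝ) ^ (s + (N + 1) * (m / n.factorial)) := by
      rw [pow_add]
      exact_mod_cast h3.trans (Nat.mul_le_mul_left _ h4)
    refine h5.trans ?_
    rw [← Real.rpow_natCast]
    apply Real.rpow_le_rpow_of_exponent_le (by norm_num)
    push_cast
    have := mul_le_mul_of_nonneg_left hmf (show (0 : ℝ) ≤ (N : ℝ) + 1 by positivity)
    have h6 : ((m / n.factorial : ℕ) : ℝ) = ((m / n.factorial : ℕ) : ℝ) := rfl
    linarith
  -- the four terms
  have hNn : 2 * ((N : ℝ) + 1) ≤ (n : ℝ) ^ 2 := by exact_mod_cast hch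
  have hN1 : (0 : ℝ) < (N : ℝ) + 1 := by positivity
  set R : ℝ := W / (F * (N + 1)) with hR
  have hR0 : 0 < R := by positivity
  have hKR : R ≤ K := by
    rw [hR, div_le_iff₀ (by positivity)]
    have : (2 : ℝ) ^ N ≤ K * n.factorial * (N + 1) := by exact_mod_cast hK1
    calc W ≤ K * F * (N + 1) := this
      _ = K * (F * (N + 1)) := by ring
  have ha : (s : ℝ) ≤ R / 4 := by
    have h3 : (s : ℝ) * F ≤ 2 * S := by rw [hF]; exact_mod_cast hsym
    have h4 : (s : ℝ) * F * (n : ℝ) ^ 5 ≤ 2 * W := by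
      calc (s : ℝ) * F * (n : ℝ) ^ 5 ≤ 2 * S * (n : ℝ) ^ 5 := by gcongr
        _ = 2 * (S * (n : ℝ) ^ 5) := by ring
        _ ≤ 2 * W := by gcongr
    have h5 : 8 * ((N : ℝ) + 1) ≤ (n : ℝ) ^ 5 := by
      calc 8 * ((N : ℝ) + 1) ≤ 4 * (n : ℝ) ^ 2 := by linarith
        _ ≤ (n : ℝ) ^ 3 * (n : ℝ) ^ 2 := by
            apply mul_le_mul_of_nonneg_right _ (by positivity)
            calc (4 : ℝ) ≤ 450 ^ 3 := by norm_num
              _ ≤ (n : ℝ) ^ 3 := by gcongr
        _ = (n : ℝ) ^ 5 := by ring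
    rw [hR, div_div, le_div_iff₀ (by positivity)]
    calc (s : ℝ) * (F * (N + 1) * 4) = s * F * (8 * (N + 1)) / 2 := by ring
      _ ≤ s * F * (n : ℝ) ^ 5 / 2 := by gcongr
      _ ≤ W := by linarith
  have hb : ((N : ℝ) + 1) * (t / F) ≤ R / 4 := by
    rw [ht, hR, div_div, div_div, mul_div_assoc', div_le_div_iff₀ (by positivity) (by positivity)]
    have h5 : 4 * ((N : ℝ) + 1) ^ 2 ≤ (n : ℝ) ^ 4 := by
      calc 4 * ((N : ℝ) + 1) ^ 2 = (2 * ((N : ℝ) + 1)) ^ 2 := by ring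
        _ ≤ ((n : ℝ) ^ 2) ^ 2 := by gcongr
        _ = (n : ℝ) ^ 4 := by ring
    calc ((N : ℝ) + 1) * W * (F * (N + 1) * 4) = W * F * (4 * (N + 1) ^ 2) := by ring
      _ ≤ W * F * (n : ℝ) ^ 4 := by gcongr
      _ = W * ((n : ℝ) ^ 4 * F) := by ring
  have hc : T ≤ R / 4 := by
    have h5 : ((N : ℝ) + 1) * (N + 2) * F ≤ (n : ℝ) ^ n := by rw [hF]; exact_mod_cast hnum
    have h6 : (2 : ℝ) ≤ N := by
      have h7 := six_mul n (by omega)
      rw [← hN] at h7
      have : 2 ≤ N := by omega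
      exact_mod_cast this
    rw [hT, hR, div_div, div_le_div_iff₀ (by positivity) (by positivity)]
    calc W * (F * (N + 1) * 4) = W * ((N + 1) * 4 * F) := by ring
      _ ≤ W * ((N + 1) * (N + 2) * F) := by gcongr; linarith
      _ ≤ W * (n : ℝ) ^ n := by gcongr
  have h7 : (2 : ℝ) ^ (K : ℝ) ≤ Nat.card {P : SimpleGraph (Fin n) → Prop // IsProp P} := by
    rw [Real.rpow_natCast]
    exact_mod_cast hK2
  calc _ ≤ (2 : ℝ) ^ ((s : ℝ) + ((N : ℝ) + 1) * (t / F)) := h2
    _ ≤ (2 : ℝ) ^ (-T + K) := by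
        apply Real.rpow_le_rpow_of_exponent_le (by norm_num)
        linarith
    _ = (2 : ℝ) ^ (-T) * (2 : ℝ) ^ (K : ℝ) := by rw [Real.rpow_add (by norm_num)]
    _ ≤ _ := by gcongr

end Pool.Agent.AG13
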